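import Mathlib
import Pool.Agent.H33.LocDer

set_option autoImplicit false

namespace Pool.Agent.Results.MP_066924_al.LocDerLie

-- Mathlib's commutator bracket on an associative ring (here on the ring of endomorphisms)
attribute [local instance 100] LieRing.ofAssociativeRing

/-- `D` is a derivation of the algebra `A` with bilinear product `μ` (not necessarily associative,
commutative or unital). -/
def IsDerivation {𝕜 A : Type*} [RCLike 𝕜] [AddCommGroup A] [Module 𝕜 A]
    (μ : A →ₗ[𝕜] A →ₗ[𝕜] A) (D : A →ₗ[𝕜] A) : Prop :=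
  ∀ x y : A, D (μ x y) = μ (D x) y + μ x (D y)

/-- `T` is a local derivation: a linear map agreeing at each point with some derivation. -/
def IsLocalDerivation {𝕜 A : Type*} [RCLike 𝕜] [AddCommGroup A] [Module 𝕜 A]
    (μ : A →ₗ[𝕜] A →ₗ[𝕜] A) (T : A →ₗ[𝕜] A) : Prop :=
  ∀ x : A, ∃ D : A →ₗ[𝕜] A, IsDerivation μ D ∧ T x = D x

/-- For every finite-dimensional algebra over `ℝ` or `ℂ`, the local derivations form a Lie
subalgebra of the Lie algebra of linear endomorphisms with the commutator bracket. -/
theorem result (𝕜 : Type*) [RCLike 𝕜] (A : Type*) [AddCommGroup A] [Module 𝕜 A]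
    [FiniteDimensional 𝕜 A] (μ : A →ₗ[𝕜] A →ₗ[𝕜] A) :
    ∃ L : LieSubalgebra 𝕜 (Module.End 𝕜 A),
      ∀ T : Module.End 𝕜 A, T ∈ L ↔ IsLocalDerivation μ T := by
  refine ⟨{ carrier := {T | IsLocalDerivation μ T}
            add_mem' := ?_
            zero_mem' := ?_
            smul_mem' := ?_
            lie_mem' := ?_ }, fun T => Iff.rfl⟩
  · intro S T hS hT x
    obtain ⟨D, hD, hx⟩ := hS x
    obtain ⟨E, hE, hy⟩ := hT x
    refine ⟨D + E, ?_, ?_⟩
    · intro u v
      simp only [LinearMap.add_apply, map_add]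
      rw [hD u v, hE u v]
      abel
    · simp only [LinearMap.add_apply]
      rw [hx, hy]
  · intro x
    exact ⟨0, by intro u v; simp, rfl⟩
  · intro c T hT x
    obtain ⟨D, hD, hx⟩ := hT x
    refine ⟨c • D, ?_, ?_⟩
    · intro u v
      simp only [LinearMap.smul_apply, map_smul]
      rw [hD u v, smul_add]
    · simp only [LinearMap.smul_apply]
      rw [hx]
  · intro S T hS hT x
    obtain ⟨D, hD, hx⟩ := H33.LocDer.commutator' μ S T hS hT x
    exact ⟨D, hD, hx⟩

end Pool.Agent.Results.MP_066924_al.LocDerLie
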